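import Mathlib
import Pool.Agent.Helper55K9.TubeStage

/-!
# A set satisfying the `s`-tube bound for all `s < d - 1`

Stage `J` of the construction refines every cube of side `ρ` to a grid of `M ^ d` cubes,
`M = 2 ^ (J + 1)`, and keeps one cube in each of the `M ^ (d - 1)` columns. By a union bound the kept
cubes can be chosen in such a way that every tube of width `l ρ / M` meets at most
`C (J + 1) l ^ (d - 1)` of them.
-/

set_option autoImplicit false

open MeasureTheory Set Filter Topology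
open scoped ENNReal NNReal

namespace Pool.Agent.Results.MP_e5cefd_an.AllExponents

open Pool.Agent.Helper55K9.TubeStage

/-- The line through `p` with direction `v` (a line when `v ≠ 0`). -/
def line {d : ℕ} (p v : EuclideanSpace ℝ (Fin d)) : Set (EuclideanSpace ℝ (Fin d)) :=
  Set.range (fun t : ℝ => p + t • v)

/-- The tube of width `w` around the line through `p` with direction `v`: the set of all points at
distance at most `w / 2` from this line. -/
def tube {d : ℕ} (p v : EuclideanSpace ℝ (Fin d)) (w : ℝ) : Set (EuclideanSpace ℝ (Fin d)) :=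
  {x | Metric.infDist x (line p v) ≤ w / 2}

section construction

variable {n : ℕ}

/-- the reciprocal of the side length of the cubes of stage `J` -/
def P : ℕ → ℕ
  | 0 => 1
  | J + 1 => 2 ^ (J + 1) * P J

lemma P_pos (J : ℕ) : 0 < P J := by
  induction J with
  | zero => simp [P]
  | succ J ih => simp only [P]; positivity

lemma P_sq (J : ℕ) : (P J) ^ 2 = 2 ^ (J * (J + 1)) := by
  induction J with
  | zero => simp [P]
  | succ J ih =>
    simp only [P]
    rw [mul_pow, ih, ← pow_mul, ← pow_add]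
    congr 1
    ring

lemma lt_P (J : ℕ) : J < P J := by
  induction J with
  | zero => simp [P]
  | succ J ih =>
    simp only [P]
    have h1 : 2 ≤ 2 ^ (J + 1) := by
      calc 2 = 2 ^ 1 := by norm_num
        _ ≤ 2 ^ (J + 1) := Nat.pow_le_pow_right (by norm_num) (by omega)
    nlinarith

lemma P_mono : Monotone P := by
  refine monotone_nat_of_le_succ fun J => ?_
  simp only [P]
  exact Nat.le_mul_of_pos_left _ (by positivity)

variable (h : ∀ J : ℕ, (Fin n → Fin (2 ^ (J + 1))) → Fin (2 ^ (J + 1)))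

/-- the child of the cube `c` given by the column `a` -/
def child (J : ℕ) (c : Fin (n + 1) → ℕ) (a : Fin n → Fin (2 ^ (J + 1))) : Fin (n + 1) → ℕ :=
  fun i => 2 ^ (J + 1) * c i + (dig (h J) a i : ℕ)

/-- the indices of the cubes of stage `J` -/
def C : ℕ → Finset (Fin (n + 1) → ℕ)
  | 0 => {0}
  | J + 1 => (C J ×ˢ Finset.univ).image (fun ca => child h J ca.1 ca.2)

/-- the cube with index `c` of stage `J` -/
def cell (J : ℕ) (c : Fin (n + 1) → ℕ) : Set (EuclideanSpace ℝ (Fin (n + 1))) :=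
  {x | ∀ i, (c i : ℝ) ≤ P J * x i ∧ P J * x i ≤ c i + 1}

/-- the union of the cubes of stage `J` -/
def lev (J : ℕ) : Set (EuclideanSpace ℝ (Fin (n + 1))) := ⋃ c ∈ C h J, cell J c

/-- the set -/
def K : Set (EuclideanSpace ℝ (Fin (n + 1))) := ⋂ J, lev h J

lemma cell_child (J : ℕ) (c : Fin (n + 1) → ℕ) (a : Fin n → Fin (2 ^ (J + 1))) :
    cell (J + 1) (child h J c a) ⊆ cell J c := by
  intro x hx i
  have h1 := hx i
  have h2 : ((dig (h J) a i : ℕ) : ℝ) + 1 ≤ 2 ^ (J + 1) := by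
    have := (dig (h J) a i).2
    exact_mod_cast this
  have h3 : (0 : ℝ) ≤ ((dig (h J) a i : ℕ) : ℝ) := Nat.cast_nonneg _
  have h4 : (0 : ℝ) < 2 ^ (J + 1) := by positivity
  simp only [child, P] at h1
  push_cast at h1
  constructor
  · by_contra hcon
    push Not at hcon
    have : (2 : ℝ) ^ (J + 1) * (P J * x i) < 2 ^ (J + 1) * c i := by
      apply mul_lt_mul_of_pos_left hcon h4
    nlinarith
  · by_contra hcon
    push Not at hcon
    have : (2 : ℝ) ^ (J + 1) * (c i + 1) < 2 ^ (J + 1) * (P J * x i) := by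
      apply mul_lt_mul_of_pos_left hcon h4
    nlinarith

lemma isClosed_cell (J : ℕ) (c : Fin (n + 1) → ℕ) : IsClosed (cell J c) := by
  have : cell J c = ⋂ i, ({x : EuclideanSpace ℝ (Fin (n + 1)) | (c i : ℝ) ≤ P J * x i} ∩
      {x | P J * x i ≤ c i + 1}) := by
    ext x
    simp [cell]
  rw [this]
  refine isClosed_iInter fun i => ?_
  exact (isClosed_le (by fun_prop) (by fun_prop)).inter (isClosed_le (by fun_prop) (by fun_prop))

lemma isClosed_lev (J : ℕ) : IsClosed (lev h J) :=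
  (C h J).finite_toSet.isClosed_biUnion fun c _ => isClosed_cell J c

lemma lev_succ (J : ℕ) : lev h (J + 1) ⊆ lev h J := by
  intro x hx
  simp only [lev, mem_iUnion] at hx ⊢
  obtain ⟨c', hc', hx⟩ := hx
  simp only [C, Finset.mem_image, Finset.mem_product, Finset.mem_univ, and_true] at hc'
  obtain ⟨⟨c, a⟩, hc, rfl⟩ := hc'
  exact ⟨c, hc, cell_child h J c a hx⟩

lemma dist_cell (J : ℕ) (c : Fin (n + 1) → ℕ) (x y : EuclideanSpace ℝ (Fin (n + 1)))
    (hx : x ∈ cell J c) (hy : y ∈ cell J c) : dist x y ≤ (n + 1) / P J := by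
  have hP : (0 : ℝ) < P J := by exact_mod_cast P_pos J
  rw [EuclideanSpace.dist_eq, Real.sqrt_le_iff]
  refine ⟨by positivity, ?_⟩
  have h1 : ∀ i ∈ (Finset.univ : Finset (Fin (n + 1))), dist (x i) (y i) ^ 2 ≤ (1 / P J : ℝ) ^ 2 := by
    intro i _
    apply pow_le_pow_left₀ dist_nonneg
    rw [Real.dist_eq, abs_le]
    have hx1 := hx i
    have hy1 := hy i
    constructor
    · rw [neg_le_iff_add_nonneg, ← mul_nonneg_iff_of_pos_left hP]
      have : (P J : ℝ) * (x i - y i + 1 / P J) = P J * x i - P J * y i + 1 := by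
        field_simp
      rw [this]
      linarith [hx1.1, hy1.2]
    · rw [le_div_iff₀ hP]
      linarith [hx1.2, hy1.1]
  refine (Finset.sum_le_sum h1).trans ?_
  rw [Finset.sum_const, Finset.card_univ, Fintype.card_fin, nsmul_eq_mul, div_pow, div_pow, one_pow]
  rw [mul_one_div]
  apply div_le_div_of_nonneg_right _ (by positivity)
  push_cast
  nlinarith [show (0 : ℝ) ≤ n from Nat.cast_nonneg n]

lemma isCompact_lev_zero : IsCompact (lev h 0) := by
  refine Metric.isCompact_of_isClosed_isBounded (isClosed_lev h 0) ?_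
  have : lev h 0 = cell 0 (0 : Fin (n + 1) → ℕ) := by
    simp [lev, C]
  rw [this]
  exact Metric.isBounded_iff.2 ⟨_, fun x hx y hy => dist_cell 0 0 x y hx hy⟩

lemma isCompact_K : IsCompact (K h) :=
  (isCompact_lev_zero h).of_isClosed_subset (isClosed_iInter fun J => isClosed_lev h J)
    (iInter_subset _ 0)

/-- the projection to the last `n` coordinates -/
def proj (x : EuclideanSpace ℝ (Fin (n + 1))) : Fin n → ℝ := fun i => x i.succ

lemma lipschitz_proj : LipschitzWith 1 (proj (n := n)) := by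
  refine LipschitzWith.of_dist_le_mul fun x y => ?_
  rw [NNReal.coe_one, one_mul, dist_pi_le_iff dist_nonneg]
  intro i
  rw [EuclideanSpace.dist_eq]
  apply Real.le_sqrt_of_sq_le
  exact Finset.single_le_sum (f := fun j => dist (x j) (y j) ^ 2) (fun j _ => sq_nonneg _)
    (Finset.mem_univ i.succ)

lemma exists_index (x : Fin n → ℝ) (hx : ∀ i, 0 ≤ x i ∧ x i < 1) (J : ℕ) :
    ∃ c ∈ C h J, ∀ i : Fin n, c i.succ = ⌊x i * P J⌋₊ := by
  induction J with
  | zero =>
    refine ⟨0, by simp [C], fun i => ?_⟩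
    have : ⌊x i * (P 0 : ℕ)⌋₊ = 0 := by
      rw [Nat.floor_eq_zero]
      simp only [P, Nat.cast_one, mul_one]
      exact (hx i).2
    rw [this]
    rfl
  | succ J ih =>
    obtain ⟨c, hc, hci⟩ := ih
    refine ⟨child h J c (fun i => ⟨⌊x i * P (J + 1)⌋₊ % 2 ^ (J + 1), Nat.mod_lt _ (by positivity)⟩),
      ?_, fun i => ?_⟩
    · simp only [C, Finset.mem_image, Finset.mem_product, Finset.mem_univ, and_true]
      exact ⟨(c, _), hc, rfl⟩
    · show 2 ^ (J + 1) * c i.succ + (dig (h J) _ i.succ : ℕ) = _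
      have e1 : ((dig (h J) (fun i => ⟨⌊x i * P (J + 1)⌋₊ % 2 ^ (J + 1),
          Nat.mod_lt _ (by positivity)⟩) i.succ : Fin (2 ^ (J + 1))) : ℕ) =
          ⌊x i * P (J + 1)⌋₊ % 2 ^ (J + 1) := rfl
      rw [e1, hci i]
      have e2 : ⌊x i * P J⌋₊ = ⌊x i * P (J + 1)⌋₊ / 2 ^ (J + 1) := by
        have e3 : x i * P J = x i * P (J + 1) / ((2 ^ (J + 1) : ℕ) : ℝ) := by
          simp only [P]
          push_cast
          field_simp
        rw [e3, Nat.floor_div_natCast]
      rw [e2]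
      exact Nat.div_add_mod _ _

lemma proj_K : Set.pi univ (fun _ : Fin n => Ico (0 : ℝ) 1) ⊆ proj '' (K h) := by
  intro x hx
  have hx' : ∀ i, 0 ≤ x i ∧ x i < 1 := fun i => hx i (mem_univ i)
  have hcont : Continuous (proj (n := n)) := lipschitz_proj.continuous
  have hcl : IsClosed (proj (n := n) ⁻¹' {x}) := isClosed_singleton.preimage hcont
  have h1 : (⋂ J, (lev h J ∩ proj (n := n) ⁻¹' {x})).Nonempty := by
    refine IsCompact.nonempty_iInter_of_sequence_nonempty_isCompact_isClosed _ ?_ ?_ ?_ ?_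
    · intro J
      exact inter_subset_inter_left _ (lev_succ h J)
    · intro J
      obtain ⟨c, hc, hci⟩ := exists_index h x hx' J
      have hP : (0 : ℝ) < P J := by exact_mod_cast P_pos J
      refine ⟨WithLp.toLp 2 (Fin.cons ((c 0 : ℝ) / P J) x), ?_, ?_⟩
      · simp only [lev, mem_iUnion]
        refine ⟨c, hc, fun i => ?_⟩
        refine Fin.cases ?_ (fun j => ?_) i
        · show (c 0 : ℝ) ≤ P J * ((c 0 : ℝ) / P J) ∧ P J * ((c 0 : ℝ) / P J) ≤ c 0 + 1
          rw [mul_div_cancel₀ _ hP.ne']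
          constructor <;> linarith
        · show (c j.succ : ℝ) ≤ P J * x j ∧ P J * x j ≤ c j.succ + 1
          rw [hci j]
          have h2 : (⌊x j * P J⌋₊ : ℝ) ≤ x j * P J :=
            Nat.floor_le (mul_nonneg (hx' j).1 hP.le)
          have h3 : x j * P J < ⌊x j * P J⌋₊ + 1 := Nat.lt_floor_add_one _
          constructor <;> linarith
      · rfl
    · exact (isCompact_lev_zero h).inter_right hcl
    · intro J
      exact (isClosed_lev h J).inter hcl
  obtain ⟨y, hy⟩ := h1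
  rw [mem_iInter] at hy
  exact ⟨y, mem_iInter.2 fun J => (hy J).1, (hy 0).2⟩

lemma lower : 1 ≤ μH[(n : ℝ)] (K h) := by
  have h1 := lipschitz_proj.hausdorffMeasure_image_le (d := (n : ℝ)) (Nat.cast_nonneg n) (K h)
  have h2 : μH[(n : ℝ)] (proj (n := n) '' (K h)) = volume (proj (n := n) '' (K h)) := by
    have := MeasureTheory.hausdorffMeasure_pi_real (ι := Fin n)
    rw [Fintype.card_fin] at this
    rw [this]
  have h3 := measure_mono (μ := (volume : Measure (Fin n → ℝ))) (proj_K h)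
  rw [volume_pi_pi] at h3
  simp only [Real.volume_Ico, sub_zero, ENNReal.ofReal_one, Finset.prod_const_one] at h3
  rw [h2] at h1
  simp only [ENNReal.coe_one, ENNReal.one_rpow, one_mul] at h1
  exact h3.trans h1

/-- the cubes of stage `J` which meet `T` -/
noncomputable def meet (J : ℕ) (T : Set (EuclideanSpace ℝ (Fin (n + 1)))) :
    Finset (Fin (n + 1) → ℕ) := by
  classical
  exact (C h J).filter (fun c => (cell J c ∩ T).Nonempty)

lemma meet_succ (J : ℕ) (T : Set (EuclideanSpace ℝ (Fin (n + 1)))) (B : ℕ)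
    (hB : ∀ c : Fin (n + 1) → ℕ, ∀ N : Finset (Fin n → Fin (2 ^ (J + 1))),
      (∀ a ∈ N, (cell (J + 1) (child h J c a) ∩ T).Nonempty) → N.card ≤ B) :
    (meet h (J + 1) T).card ≤ (meet h J T).card * B := by
  classical
  have hsub : meet h (J + 1) T ⊆ (meet h J T).biUnion (fun c =>
      (Finset.univ.filter (fun a => (cell (J + 1) (child h J c a) ∩ T).Nonempty)).image
        (child h J c)) := by
    intro c' hc'
    unfold meet at hc'
    rw [Finset.mem_filter] at hc'
    obtain ⟨hc', hne⟩ := hc'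
    simp only [C, Finset.mem_image, Finset.mem_product, Finset.mem_univ, and_true] at hc'
    obtain ⟨⟨c, a⟩, hc, rfl⟩ := hc'
    rw [Finset.mem_biUnion]
    refine ⟨c, ?_, ?_⟩
    · unfold meet
      rw [Finset.mem_filter]
      exact ⟨hc, hne.mono (inter_subset_inter_left _ (cell_child h J c a))⟩
    · rw [Finset.mem_image]
      exact ⟨a, by rw [Finset.mem_filter]; exact ⟨Finset.mem_univ _, hne⟩, rfl⟩
  refine (Finset.card_le_card hsub).trans (Finset.card_biUnion_le.trans ?_)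
  refine (Finset.sum_le_card_nsmul _ _ B fun c _ => ?_).trans (by rw [smul_eq_mul])
  refine Finset.card_image_le.trans (hB c _ ?_)
  intro a ha
  rw [Finset.mem_filter] at ha
  exact ha.2

lemma meet_trivial (J : ℕ) (T : Set (EuclideanSpace ℝ (Fin (n + 1)))) :
    (meet h (J + 1) T).card ≤ (meet h J T).card * (2 ^ (J + 1)) ^ n := by
  refine meet_succ h J T _ fun c N _ => ?_
  refine (Finset.card_le_univ N).trans ?_
  simp

lemma meet_zero (T : Set (EuclideanSpace ℝ (Fin (n + 1)))) : (meet h 0 T).card ≤ 1 := by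
  classical
  unfold meet
  refine (Finset.card_filter_le _ _).trans ?_
  simp [C]

lemma meet_add (J k : ℕ) (T : Set (EuclideanSpace ℝ (Fin (n + 1)))) :
    (meet h (J + k) T).card * (P J) ^ n ≤ (meet h J T).card * (P (J + k)) ^ n := by
  induction k with
  | zero => simp
  | succ k ih =>
    have h1 := meet_trivial h (J + k) T
    calc (meet h (J + (k + 1)) T).card * (P J) ^ n
        ≤ ((meet h (J + k) T).card * (2 ^ (J + k + 1)) ^ n) * (P J) ^ n :=
          Nat.mul_le_mul_right _ h1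
      _ = ((meet h (J + k) T).card * (P J) ^ n) * (2 ^ (J + k + 1)) ^ n := by ring
      _ ≤ ((meet h J T).card * (P (J + k)) ^ n) * (2 ^ (J + k + 1)) ^ n := Nat.mul_le_mul_right _ ih
      _ = (meet h J T).card * (P (J + (k + 1))) ^ n := by
          have : P (J + (k + 1)) = 2 ^ (J + k + 1) * P (J + k) := rfl
          rw [this, mul_pow]
          ring

/-- the upper bound for the measure in terms of the number of cubes -/
lemma upper (T : Set (EuclideanSpace ℝ (Fin (n + 1)))) (A : ℝ) (J0 : ℕ)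
    (hT : ∀ J, J0 ≤ J → ((meet h J T).card : ℝ) ≤ A * (P J) ^ n) :
    μH[(n : ℝ)] (K h ∩ T) ≤ ENNReal.ofReal (A * (n + 1) ^ n) := by
  classical
  have h1 := MeasureTheory.Measure.hausdorffMeasure_le_liminf_sum (X := EuclideanSpace ℝ (Fin (n + 1)))
    (ι := fun J => {c // c ∈ meet h J T}) (n : ℝ) (K h ∩ T) (l := atTop)
    (fun J => ENNReal.ofReal ((n + 1) / P J)) (by
      rw [← ENNReal.ofReal_zero]
      apply ENNReal.tendsto_ofReal
      apply Filter.Tendsto.div_atTop tendsto_const_nhds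
      refine tendsto_natCast_atTop_atTop.comp ?_
      exact tendsto_atTop_mono (fun J => (lt_P J).le) tendsto_id)
    (fun J c => cell J c.1) (Eventually.of_forall fun J c => by
      refine Metric.ediam_le fun x hx y hy => ?_
      rw [edist_dist]
      exact ENNReal.ofReal_le_ofReal (dist_cell J c.1 x y hx hy))
    (Eventually.of_forall fun J => by
      rintro x ⟨hxK, hxT⟩
      have h2 := mem_iInter.1 hxK J
      simp only [lev, mem_iUnion] at h2
      obtain ⟨c, hc, hx⟩ := h2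
      rw [mem_iUnion]
      refine ⟨⟨c, ?_⟩, hx⟩
      unfold meet
      rw [Finset.mem_filter]
      exact ⟨hc, ⟨x, hx, hxT⟩⟩)
  refine h1.trans ?_
  refine (Filter.liminf_le_liminf (v := fun _ => ENNReal.ofReal (A * (n + 1) ^ n)) ?_).trans ?_
  · filter_upwards [eventually_ge_atTop J0] with J hJ
    have hP : (0 : ℝ) < P J := by exact_mod_cast P_pos J
    have h3 : ∀ c ∈ (Finset.univ : Finset {c // c ∈ meet h J T}),
        Metric.ediam (cell J c.1) ^ (n : ℝ) ≤ ENNReal.ofReal (((n + 1) / P J) ^ n) := by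
      intro c _
      rw [ENNReal.rpow_natCast, ENNReal.ofReal_pow (by positivity)]
      apply pow_le_pow_left₀ (zero_le)
      refine Metric.ediam_le fun x hx y hy => ?_
      rw [edist_dist]
      exact ENNReal.ofReal_le_ofReal (dist_cell J c.1 x y hx hy)
    refine (Finset.sum_le_card_nsmul _ _ _ h3).trans ?_
    rw [nsmul_eq_mul, Finset.card_univ, Fintype.card_coe, ← ENNReal.ofReal_natCast,
      ← ENNReal.ofReal_mul (Nat.cast_nonneg _)]
    apply ENNReal.ofReal_le_ofReal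
    refine (mul_le_mul_of_nonneg_right (hT J hJ) (by positivity)).trans (le_of_eq ?_)
    rw [div_pow]
    field_simp
  · simp

/-- if a cube of stage `J + 1` inside the cube `c` meets the tube then its digit vector is close to a
line -/
lemma near_of_meet (J : ℕ) (c : Fin (n + 1) → ℕ) (a : Fin n → Fin (2 ^ (J + 1)))
    (p v : EuclideanSpace ℝ (Fin (n + 1))) (w : ℝ) (hw : 0 < w) (l : ℕ) (hl : 1 ≤ l)
    (hwl : P (J + 1) * w ≤ l)
    (hne : (cell (J + 1) (child h J c a) ∩ tube p v w).Nonempty) :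
    ∃ s : ℝ, ∀ i, |((dig (h J) a i : ℕ) : ℝ) - (P (J + 1) * p i - 2 ^ (J + 1) * c i) -
      s * (P (J + 1) * v i)| ≤ 2 * (l : ℝ) := by
  have hP : (0 : ℝ) < P (J + 1) := by exact_mod_cast P_pos (J + 1)
  obtain ⟨x, hx, hxT⟩ := hne
  have h1 : Metric.infDist x (line p v) < w := lt_of_le_of_lt hxT (by linarith)
  have hne' : (line p v).Nonempty := ⟨p + (0 : ℝ) • v, ⟨0, rfl⟩⟩
  rw [Metric.infDist_lt_iff hne'] at h1
  obtain ⟨y, ⟨s, rfl⟩, hy⟩ := h1
  refine ⟨s, fun i => ?_⟩
  have h2 : |x i - (p i + s * v i)| ≤ w := by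
    have h3 : dist (x i) ((p + s • v) i) ≤ dist x (p + s • v) := by
      rw [EuclideanSpace.dist_eq]
      apply Real.le_sqrt_of_sq_le
      exact Finset.single_le_sum (f := fun j => dist (x j) ((p + s • v) j) ^ 2)
        (fun j _ => sq_nonneg _) (Finset.mem_univ i)
    rw [Real.dist_eq] at h3
    exact h3.trans hy.le
  have h4 := hx i
  simp only [child] at h4
  push_cast at h4
  have hl' : (1 : ℝ) ≤ l := by exact_mod_cast hl
  have h5 : |P (J + 1) * x i - P (J + 1) * (p i + s * v i)| ≤ l := by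
    rw [← mul_sub, abs_mul, abs_of_pos hP]
    exact (mul_le_mul_of_nonneg_left h2 hP.le).trans hwl
  rw [abs_le] at h5 ⊢
  constructor <;> nlinarith [h5.1, h5.2, h4.1, h4.2]

/-- the constant -/
def A0 (n : ℕ) : ℕ := 2 * n + 3 + 4 * 11 ^ (n + 1)

lemma meet_tube (hh : ∀ J l, 1 ≤ l → l ≤ 2 ^ (J + 1) → ∀ z z' : Fin (n + 1) → Fin (2 ^ (J + 1)),
      hits (seg l z z') (h J) ≤ (J + 1) * (2 * n + 3) + 4 * 11 ^ (n + 1) * l ^ n)
    (J : ℕ) (p v : EuclideanSpace ℝ (Fin (n + 1))) (w : ℝ) (hw : 0 < w) (l : ℕ) (hl : 1 ≤ l)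
    (hlJ : l ≤ 2 ^ (J + 1)) (hwl : P (J + 1) * w ≤ l) :
    (meet h (J + 1) (tube p v w)).card ≤ (meet h J (tube p v w)).card * (A0 n * (J + 1) * l ^ n) := by
  refine meet_succ h J _ _ fun c N hN => ?_
  have h1 := near_line (fun l => (J + 1) * (2 * n + 3) + 4 * 11 ^ (n + 1) * l ^ n) (h J) (hh J) l hl hlJ
    (fun i => P (J + 1) * p i - 2 ^ (J + 1) * c i) (fun i => P (J + 1) * v i) N
    (fun a ha => near_of_meet h J c a p v w hw l hl hwl (hN a ha))
  refine h1.trans ?_
  have h2 : 1 ≤ l ^ n := Nat.one_le_pow _ _ hl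
  unfold A0
  have h3 : (J + 1) * (2 * n + 3) ≤ (J + 1) * (2 * n + 3) * l ^ n := Nat.le_mul_of_pos_right _ h2
  have h4 : 4 * 11 ^ (n + 1) * l ^ n ≤ (J + 1) * (4 * 11 ^ (n + 1) * l ^ n) :=
    Nat.le_mul_of_pos_left _ (by omega)
  calc (J + 1) * (2 * n + 3) + 4 * 11 ^ (n + 1) * l ^ n
      ≤ (J + 1) * (2 * n + 3) * l ^ n + (J + 1) * (4 * 11 ^ (n + 1) * l ^ n) := add_le_add h3 h4
    _ = (2 * n + 3 + 4 * 11 ^ (n + 1)) * (J + 1) * l ^ n := by ring

lemma meet_small (hh : ∀ J l, 1 ≤ l → l ≤ 2 ^ (J + 1) → ∀ z z' : Fin (n + 1) → Fin (2 ^ (J + 1)),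
      hits (seg l z z') (h J) ≤ (J + 1) * (2 * n + 3) + 4 * 11 ^ (n + 1) * l ^ n)
    (J : ℕ) (p v : EuclideanSpace ℝ (Fin (n + 1))) (w : ℝ) (hw : 0 < w)
    (hwJ : P J * w ≤ 1) :
    (meet h J (tube p v w)).card ≤ (A0 n * J) ^ J := by
  have hkey : ∀ j ≤ J, (meet h j (tube p v w)).card ≤ (A0 n * J) ^ j := by
    intro j
    induction j with
    | zero =>
      intro _
      simpa using meet_zero h (tube p v w)
    | succ j ih =>
      intro hj
      have h1 := ih (by omega)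
      have h2 : (P (j + 1) : ℝ) * w ≤ ((1 : ℕ) : ℝ) := by
        have : (P (j + 1) : ℝ) ≤ P J := by exact_mod_cast P_mono hj
        push_cast
        nlinarith
      have h3 := meet_tube h hh j p v w hw 1 le_rfl (Nat.one_le_two_pow) h2
      refine h3.trans ?_
      rw [one_pow, mul_one, pow_succ]
      exact Nat.mul_le_mul h1 (Nat.mul_le_mul_left _ hj)
  exact hkey J le_rfl

/-- elementary: the products of the constants grow slower than any power -/
lemma growth (A : ℕ) (ε : ℝ) (hε : 0 < ε) :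
    ∃ C : ℝ, 0 < C ∧ ∀ J : ℕ, ((A * (J + 1) : ℕ) : ℝ) ^ (J + 1) * ((P J : ℝ) ^ (-ε)) ≤ C := by
  set b : ℕ → ℝ := fun J => (A * (J + 1) : ℕ) * (2 : ℝ) ^ (-(ε * J / 2)) with hb
  have hbt : Tendsto b atTop (𝓝 0) := by
    have h1 : Tendsto (fun J : ℕ => (J : ℝ) * ((2 : ℝ) ^ (-(ε / 2))) ^ J) atTop (𝓝 0) := by
      apply tendsto_self_mul_const_pow_of_lt_one
      · positivity
      · rw [Real.rpow_neg (by norm_num)]
        apply inv_lt_one_of_one_lt₀
        exact Real.one_lt_rpow (by norm_num) (by linarith)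
    have h2 : Tendsto (fun J : ℕ => ((2 : ℝ) ^ (-(ε / 2))) ^ J) atTop (𝓝 0) := by
      apply tendsto_pow_atTop_nhds_zero_of_lt_one
      · positivity
      · rw [Real.rpow_neg (by norm_num)]
        apply inv_lt_one_of_one_lt₀
        exact Real.one_lt_rpow (by norm_num) (by linarith)
    have h3 := (h1.add h2).const_mul (A : ℝ)
    simp only [add_zero, mul_zero] at h3
    refine h3.congr fun J => ?_
    simp only [hb]
    have e : (2 : ℝ) ^ (-(ε * J / 2)) = ((2 : ℝ) ^ (-(ε / 2))) ^ J := by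
      rw [← Real.rpow_natCast, ← Real.rpow_mul (by norm_num)]
      congr 1
      ring
    rw [e]
    push_cast
    ring
  have hb0 : ∀ J, 0 ≤ b J := fun J => by simp only [hb]; positivity
  have hev : ∀ᶠ J in atTop, b J < 1 := hbt.eventually_lt_const zero_lt_one
  obtain ⟨J0, hJ0⟩ := eventually_atTop.1 hev
  refine ⟨1 + ∑ J ∈ Finset.range J0, b J ^ (J + 1), by
    have : 0 ≤ ∑ J ∈ Finset.range J0, b J ^ (J + 1) :=
      Finset.sum_nonneg fun J _ => pow_nonneg (hb0 J) _
    linarith, fun J => ?_⟩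
  have e : ((A * (J + 1) : ℕ) : ℝ) ^ (J + 1) * ((P J : ℝ) ^ (-ε)) = b J ^ (J + 1) := by
    simp only [hb]
    rw [mul_pow]
    congr 1
    have h1 : (P J : ℝ) ^ (-ε) = ((P J : ℝ) ^ 2) ^ (-ε / 2) := by
      rw [← Real.rpow_natCast, ← Real.rpow_mul (Nat.cast_nonneg _)]
      congr 1
      push_cast
      ring
    have h2 : ((P J : ℝ) ^ 2) = (2 : ℝ) ^ (J * (J + 1)) := by exact_mod_cast P_sq J
    rw [h1, h2, ← Real.rpow_natCast, ← Real.rpow_mul (by norm_num), ← Real.rpow_natCast,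
      ← Real.rpow_mul (by norm_num)]
    congr 1
    push_cast
    ring
  rw [e]
  by_cases hJ : J < J0
  · have h1 := Finset.single_le_sum (f := fun J => b J ^ (J + 1))
      (fun J _ => pow_nonneg (hb0 J) _) (Finset.mem_range.2 hJ)
    have h2 : b J ^ (J + 1) ≤ ∑ J ∈ Finset.range J0, b J ^ (J + 1) := h1
    linarith
  · have h1 : b J ^ (J + 1) ≤ 1 := pow_le_one₀ (hb0 J) (hJ0 J (by omega)).le
    have h2 : 0 ≤ ∑ J ∈ Finset.range J0, b J ^ (J + 1) :=
      Finset.sum_nonneg fun J _ => pow_nonneg (hb0 J) _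
    linarith

lemma meet_all (J : ℕ) (T : Set (EuclideanSpace ℝ (Fin (n + 1)))) :
    ((meet h J T).card : ℝ) ≤ 1 * (P J) ^ n := by
  have h1 := meet_add h 0 J T
  have h2 := meet_zero h T
  simp only [zero_add, P, one_pow, mul_one] at h1
  rw [one_mul]
  have h3 : (meet h J T).card ≤ (P J) ^ n := h1.trans (by
    calc (meet h 0 T).card * P J ^ n ≤ 1 * P J ^ n := Nat.mul_le_mul_right _ h2
      _ = P J ^ n := one_mul _)
  exact_mod_cast h3

lemma total (T : Set (EuclideanSpace ℝ (Fin (n + 1)))) :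
    μH[(n : ℝ)] (K h ∩ T) ≤ ENNReal.ofReal (1 * (n + 1) ^ n) :=
  upper h T 1 0 fun J _ => meet_all h J T

lemma tube_bound (hh : ∀ J l, 1 ≤ l → l ≤ 2 ^ (J + 1) → ∀ z z' : Fin (n + 1) → Fin (2 ^ (J + 1)),
      hits (seg l z z') (h J) ≤ (J + 1) * (2 * n + 3) + 4 * 11 ^ (n + 1) * l ^ n)
    (p v : EuclideanSpace ℝ (Fin (n + 1))) (w : ℝ) (hw : 0 < w) (hw1 : w ≤ 1) :
    ∃ J : ℕ, P J * w ≤ 1 ∧ μH[(n : ℝ)] (K h ∩ tube p v w) ≤
      ENNReal.ofReal (((A0 n * (J + 1) : ℕ) : ℝ) ^ (J + 1) * (2 * w) ^ n * (n + 1) ^ n) := by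
  classical
  have hex : ∃ J, 1 < P (J + 1) * w := by
    obtain ⟨J, hJ⟩ := exists_nat_gt (1 / w)
    refine ⟨J, ?_⟩
    have h1 : (J : ℝ) ≤ P (J + 1) := by
      have := lt_P (J + 1)
      exact_mod_cast (by omega : J ≤ P (J + 1))
    rw [div_lt_iff₀ hw] at hJ
    nlinarith
  have hJ := Nat.find_spec hex
  have hJmin : ∀ j < Nat.find hex, P (j + 1) * w ≤ 1 := fun j hj => by
    have := Nat.find_min hex hj
    push Not at this
    exact this
  set J := Nat.find hex
  have hPJ : P J * w ≤ 1 := by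
    rcases Nat.eq_zero_or_pos J with h0 | h0
    · rw [h0]; simp [P]; exact hw1
    · obtain ⟨j, hj⟩ : ∃ j, J = j + 1 := ⟨J - 1, by omega⟩
      rw [hj]
      exact hJmin j (by omega)
  refine ⟨J, hPJ, ?_⟩
  have hP : (0 : ℝ) < P (J + 1) := by exact_mod_cast P_pos (J + 1)
  set l : ℕ := ⌈P (J + 1) * w⌉₊ with hl
  have hl1 : 1 ≤ l := by
    rw [hl, Nat.one_le_ceil_iff]
    linarith
  have hwl : P (J + 1) * w ≤ l := Nat.le_ceil _
  have hlJ : l ≤ 2 ^ (J + 1) := by
    rw [hl, Nat.ceil_le]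
    have e : (P (J + 1) : ℝ) = 2 ^ (J + 1) * P J := by simp only [P]; push_cast; ring
    rw [e, mul_assoc]
    push_cast
    have : (0 : ℝ) < 2 ^ (J + 1) := by positivity
    nlinarith
  have hl2 : (l : ℝ) ≤ 2 * (P (J + 1) * w) := by
    have h1 : (l : ℝ) < P (J + 1) * w + 1 := Nat.ceil_lt_add_one (by positivity)
    linarith
  have h1 := meet_tube h hh J p v w hw l hl1 hlJ hwl
  have h2 := meet_small h hh J p v w hw hPJ
  have h3 : (meet h (J + 1) (tube p v w)).card ≤ (A0 n * (J + 1)) ^ (J + 1) * l ^ n := by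
    refine h1.trans ?_
    calc (meet h J (tube p v w)).card * (A0 n * (J + 1) * l ^ n)
        ≤ (A0 n * J) ^ J * (A0 n * (J + 1) * l ^ n) := Nat.mul_le_mul_right _ h2
      _ ≤ (A0 n * (J + 1)) ^ J * (A0 n * (J + 1) * l ^ n) :=
          Nat.mul_le_mul_right _ (Nat.pow_le_pow_left (Nat.mul_le_mul_left _ (by omega)) _)
      _ = (A0 n * (J + 1)) ^ (J + 1) * l ^ n := by rw [pow_succ (A0 n * (J + 1)) J]; ring
  refine upper h (tube p v w) _ (J + 1) fun J' hJ' => ?_
  obtain ⟨k, rfl⟩ := Nat.exists_eq_add_of_le hJ'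
  have h4 := meet_add h (J + 1) k (tube p v w)
  have h5 : ((meet h (J + 1 + k) (tube p v w)).card : ℝ) * (P (J + 1)) ^ n ≤
      (meet h (J + 1) (tube p v w)).card * (P (J + 1 + k)) ^ n := by exact_mod_cast h4
  have h6 : ((meet h (J + 1) (tube p v w)).card : ℝ) ≤
      ((A0 n * (J + 1) : ℕ) : ℝ) ^ (J + 1) * (l : ℝ) ^ n := by exact_mod_cast h3
  have h7 : (l : ℝ) ^ n ≤ (2 * (P (J + 1) * w)) ^ n := pow_le_pow_left₀ (Nat.cast_nonneg _) hl2 n
  have h8 : ((meet h (J + 1) (tube p v w)).card : ℝ) ≤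
      ((A0 n * (J + 1) : ℕ) : ℝ) ^ (J + 1) * (2 * (P (J + 1) * w)) ^ n :=
    h6.trans (mul_le_mul_of_nonneg_left h7 (by positivity))
  have hPn : (0 : ℝ) < (P (J + 1) : ℝ) ^ n := by positivity
  rw [← mul_le_mul_iff_left₀ hPn]
  refine h5.trans ?_
  refine (mul_le_mul_of_nonneg_right h8 (by positivity)).trans (le_of_eq ?_)
  rw [show (2 * ((P (J + 1) : ℝ) * w)) = (2 * w) * P (J + 1) by ring, mul_pow (2 * w)]
  ring

end construction

/-- **Main result.** For every `d ≥ 2` there is a compact set `K` in `ℝ^d` with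
`0 < H^(d-1)(K) < ∞` which satisfies the `s`-tube bound for all `s < d - 1`: for every such `s`
there is a constant `C` with `H^(d-1)(K ∩ T) ≤ C w ^ s` for all tubes `T` of width `w`
(of width `w ≤ 1` if `s` is negative). -/
theorem result (d : ℕ) (hd : 2 ≤ d) :
    ∃ K : Set (EuclideanSpace ℝ (Fin d)), IsCompact K ∧
      0 < μH[(d : ℝ) - 1] K ∧ μH[(d : ℝ) - 1] K < ∞ ∧
      ∀ s : ℝ, s < (d : ℝ) - 1 → ∃ C : ℝ≥0, ∀ (p v : EuclideanSpace ℝ (Fin d)) (w : ℝ),
        v ≠ 0 → 0 < w → (0 ≤ s ∨ w ≤ 1) →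
          μH[(d : ℝ) - 1] (K ∩ tube p v w) ≤ C * ENNReal.ofReal (w ^ s) := by
  obtain ⟨n, rfl⟩ : ∃ n, d = n + 1 := ⟨d - 1, by omega⟩
  have hn : 1 ≤ n := by omega
  choose h hh using fun J => stage n J
  have hdn : (((n + 1 : ℕ) : ℝ) - 1) = n := by push_cast; ring
  rw [hdn]
  refine ⟨K h, isCompact_K h, lt_of_lt_of_le zero_lt_one (lower h), ?_, fun s hs => ?_⟩
  · have := total h univ
    rw [inter_univ] at this
    exact this.trans_lt ENNReal.ofReal_lt_top
  obtain ⟨D, hD0, hD⟩ := growth (A0 n) (n - s) (by linarith)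
  refine ⟨(1 * (n + 1) ^ n + D * 2 ^ n * (n + 1) ^ n : ℝ).toNNReal, fun p v w _ hw hsw => ?_⟩
  have hCnn : (0 : ℝ) ≤ 1 * (n + 1) ^ n + D * 2 ^ n * (n + 1) ^ n := by positivity
  rw [← ENNReal.ofReal_coe_nnreal, Real.coe_toNNReal _ hCnn, ← ENNReal.ofReal_mul hCnn]
  have hws : 0 < w ^ s := Real.rpow_pos_of_pos hw s
  rcases le_or_gt w 1 with hw1 | hw1
  · obtain ⟨J, hPJ, hJ⟩ := tube_bound h hh p v w hw hw1
    refine hJ.trans (ENNReal.ofReal_le_ofReal ?_)
    have hP : (0 : ℝ) < P J := by exact_mod_cast P_pos J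
    have h1 : w ^ n = w ^ s * w ^ ((n : ℝ) - s) := by
      rw [← Real.rpow_add hw, ← Real.rpow_natCast]
      congr 1
      ring
    have h2 : w ^ ((n : ℝ) - s) ≤ (P J : ℝ) ^ (-((n : ℝ) - s)) := by
      rw [Real.rpow_neg hP.le, ← Real.inv_rpow hP.le]
      apply Real.rpow_le_rpow hw.le _ (by linarith)
      rw [le_inv_comm₀ hw hP, ← one_div, le_div_iff₀ hw]
      exact hPJ
    have h3 := hD J
    have h4 : (0 : ℝ) ≤ ((A0 n * (J + 1) : ℕ) : ℝ) ^ (J + 1) := by positivity
    have h5 : ((A0 n * (J + 1) : ℕ) : ℝ) ^ (J + 1) * w ^ ((n : ℝ) - s) ≤ D :=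
      (mul_le_mul_of_nonneg_left h2 h4).trans h3
    calc ((A0 n * (J + 1) : ℕ) : ℝ) ^ (J + 1) * (2 * w) ^ n * (n + 1) ^ n
        = (((A0 n * (J + 1) : ℕ) : ℝ) ^ (J + 1) * w ^ ((n : ℝ) - s)) * (2 ^ n * (n + 1) ^ n * w ^ s) := by
          rw [mul_pow, h1]; ring
      _ ≤ D * (2 ^ n * (n + 1) ^ n * w ^ s) := mul_le_mul_of_nonneg_right h5 (by positivity)
      _ ≤ (1 * (n + 1) ^ n + D * 2 ^ n * (n + 1) ^ n) * w ^ s := by
          have : (0 : ℝ) ≤ 1 * (n + 1) ^ n * w ^ s := by positivity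
          nlinarith
  · have hs0 : 0 ≤ s := by
      rcases hsw with h1 | h1
      · exact h1
      · linarith
    refine (total h _).trans (ENNReal.ofReal_le_ofReal ?_)
    have h1 : 1 ≤ w ^ s := Real.one_le_rpow hw1.le hs0
    have h2 : (0 : ℝ) ≤ 1 * (n + 1) ^ n := by positivity
    have h3 : (0 : ℝ) ≤ D * 2 ^ n * (n + 1) ^ n := by positivity
    nlinarith

end Pool.Agent.Results.MP_e5cefd_an.AllExponents
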